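import Pool.Agent.H466.HE.SB
import Pool.Agent.H200.HE.HB0

/-!
# The backward heat flow has the expected size near most points
-/

set_option autoImplicit false

namespace Pool.Agent.H200.HE

open Complex MeasureTheory Set Filter Topology
open Pool.Agent.H466.HF Pool.Agent.H466.LD Pool.Agent.H466.HP Pool.Agent.H466.HN
open Pool.Agent.H466.HD Pool.Agent.H466.HE

/-- combination of the constants -/
theorem comb {C ρ A s g x J b : ℝ} (hA : 0 ≤ A) (hs : 0 ≤ s) (hg : 0 ≤ g)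
    (hx : x ≤ 9 * (ρ / 40) ^ 2 * A + 18 * C ^ 2)
    (hJ : J ≤ g * Real.exp b * Real.exp (100 * C ^ 2 - 3 / 100 * (ρ ^ 2 * A)) *
      (4 * Real.sqrt Real.pi * s)) :
    2 * Real.exp (x - b) * J ≤
      8 * Real.sqrt Real.pi * Real.exp (118 * C ^ 2) * s * g * Real.exp (-(ρ ^ 2 / 50 * A)) := by
  have h1 : 2 * Real.exp (x - b) * J ≤ 2 * Real.exp (9 * (ρ / 40) ^ 2 * A + 18 * C ^ 2 - b) *
      (g * Real.exp b * Real.exp (100 * C ^ 2 - 3 / 100 * (ρ ^ 2 * A)) *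
        (4 * Real.sqrt Real.pi * s)) :=
    (mul_le_mul_of_nonneg_left hJ (by positivity)).trans
      (mul_le_mul_of_nonneg_right (mul_le_mul_of_nonneg_left
        (Real.exp_le_exp.2 (by linarith)) (by norm_num)) (by positivity))
  refine h1.trans ?_
  have h2 : 2 * Real.exp (9 * (ρ / 40) ^ 2 * A + 18 * C ^ 2 - b) *
      (g * Real.exp b * Real.exp (100 * C ^ 2 - 3 / 100 * (ρ ^ 2 * A)) *
        (4 * Real.sqrt Real.pi * s)) =
      8 * Real.sqrt Real.pi * s * g * (Real.exp (9 * (ρ / 40) ^ 2 * A + 18 * C ^ 2 - b) *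
        Real.exp b * Real.exp (100 * C ^ 2 - 3 / 100 * (ρ ^ 2 * A))) := by ring
  have h3 : 8 * Real.sqrt Real.pi * Real.exp (118 * C ^ 2) * s * g *
      Real.exp (-(ρ ^ 2 / 50 * A)) = 8 * Real.sqrt Real.pi * s * g *
        (Real.exp (118 * C ^ 2) * Real.exp (-(ρ ^ 2 / 50 * A))) := by ring
  rw [h2, h3, ← Real.exp_add, ← Real.exp_add, ← Real.exp_add]
  apply mul_le_mul_of_nonneg_left _ (by positivity)
  apply Real.exp_le_exp.2
  have h4 : 0 ≤ ρ ^ 2 * A := by positivity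
  nlinarith

/-- the contradiction -/
theorem fin_step {G W Z g s B Cr e50 e64 I0 q : ℝ} (hG : 0 ≤ G) (hg : 0 < g) (hs : 0 ≤ s)
    (hZ : 0 ≤ Z) (hB : 0 ≤ B) (he : 0 ≤ e50) (h1 : G * W ≤ I0 + G * q)
    (h2 : I0 ≤ B * s * g * e50) (h3 : g ≤ Cr * G * Z) (h4 : B * Cr * e50 ≤ 1 / 4 * e64)
    (h5 : q < 1 / 4 * (s * e64 * Z)) (he' : 0 ≤ e64) : W < s * e64 * Z := by
  have hG0 : 0 < G := by
    rcases hG.lt_or_eq with h | h
    · exact h
    · rw [← h, mul_zero, zero_mul] at h3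
      exact absurd hg (not_lt.2 h3)
  have h6 : I0 ≤ G * (1 / 4 * (s * e64 * Z)) := by
    calc I0 ≤ B * s * g * e50 := h2
      _ = (B * s * e50) * g := by ring
      _ ≤ (B * s * e50) * (Cr * G * Z) := mul_le_mul_of_nonneg_left h3 (by positivity)
      _ = (B * Cr * e50) * (s * Z * G) := by ring
      _ ≤ (1 / 4 * e64) * (s * Z * G) := mul_le_mul_of_nonneg_right h4 (by positivity)
      _ = _ := by ring
  have h7 : G * W < G * (s * e64 * Z) := by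
    have h8 : G * q < G * (1 / 4 * (s * e64 * Z)) := mul_lt_mul_of_pos_left h5 hG0
    have h9 : 0 ≤ G * (s * e64 * Z) := by positivity
    nlinarith
  exact lt_of_mul_lt_mul_left h7 hG

/-- the main case: centre not too close to the line `Re z = Δ`, with loss `ρ²` -/
def S_HB1 : Prop := ∀ ρ ε0 x0 : ℝ, 0 < ρ → ρ ≤ 1 / 4 → 0 < ε0 → 0 ≤ x0 → x0 ≤ 1 - ρ →
  ∃ κ0 : ℝ, 0 < κ0 ∧ ∀ κ : ℝ, 0 < κ → κ ≤ κ0 → ∀ A1 : ℝ, 1 ≤ A1 →
    ∃ A0 δ T0 : ℝ, 1 ≤ A0 ∧ 0 < δ ∧ 10 ≤ T0 ∧ ∀ T μ : ℝ, T0 ≤ T → 0 < μ →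
    A0 ≤ μ * Real.log T ^ 2 → μ * Real.log T ≤ δ →
    volume {t : ℝ | t ∈ Icc T (2 * T) ∧ Rg T t A1 (1 / κ) κ ∧
      ∀ z : ℂ, ‖z - ((x0 * (μ * Real.log T) : ℝ) + (t : ℂ) * I)‖ ≤ ρ * (μ * Real.log T) →
        ‖LL gk (-μ) z‖ < Gm T t μ * Real.exp ((x0 ^ 2 / 4 - ρ ^ 2) * (μ * Real.log T ^ 2))} ≤
      ENNReal.ofReal (ε0 * T)

theorem hb1 (h1 : S_NTg) (h2 : S_FBg) (h3 : S_UHg) (h4 : S_GB) (h5 : S_GR) : S_HB1 := by
  intro ρ ε0 x0 hρ hρ4 hε0 hx0 hx1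
  obtain ⟨A0n, δn, T0n, hA0n, hδn, hT0n, hn⟩ := h1 (ρ / 2) (ρ / 40) (ρ ^ 2 / 64) ε0 x0
    (by positivity) (by positivity) (by linarith) (by positivity) hε0 hx0 (by linarith)
  obtain ⟨δ2, Kc, hδ2, hKc, hu⟩ := h3
  obtain ⟨κ0u, hκ0u, hu⟩ := hu (ρ ^ 2 / 1000) (by positivity)
  obtain ⟨Cr, κ0r, hCr, hκ0r, hr⟩ := h5
  obtain ⟨Cg, T0g, hCg, hT0g, hg⟩ := h4
  refine ⟨min κ0u κ0r, lt_min hκ0u hκ0r, ?_⟩
  intro κ hκ hκle A1 hA1
  obtain ⟨A0u, T0u, hA0u, hT0u, hu⟩ := hu κ hκ (hκle.trans (min_le_left _ _)) A1 hA1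
  obtain ⟨T0r, hT0r, hr⟩ := hr κ hκ (hκle.trans (min_le_right _ _)) A1 hA1
  have hB : 0 < 8 * Real.sqrt Real.pi * Real.exp (118 * Cg ^ 2) := by
    have := Real.sqrt_pos.2 Real.pi_pos
    positivity
  obtain ⟨B, hBdef⟩ : ∃ B : ℝ, B = 8 * Real.sqrt Real.pi * Real.exp (118 * Cg ^ 2) := ⟨_, rfl⟩
  rw [← hBdef] at hB
  refine ⟨max (max A0n A0u) (max A1 (1000 * (1 + B * Cr) / ρ ^ 2)),
    min (min δn δ2) (min (1 / 2) (1 / (400 * Kc))),
    max (max T0n T0u) (max (max T0r T0g) (Real.exp 300)), ?_, ?_, ?_, ?_⟩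
  · exact hA1.trans ((le_max_left _ _).trans (le_max_right _ _))
  · exact lt_min (lt_min hδn hδ2) (lt_min (by norm_num) (by positivity))
  · exact hT0n.trans ((le_max_left _ _).trans (le_max_left _ _))
  intro T μ hT hμ hA hδ
  have hTn : T0n ≤ T := ((le_max_left _ _).trans (le_max_left _ _)).trans hT
  have hTu : T0u ≤ T := ((le_max_right _ _).trans (le_max_left _ _)).trans hT
  have hTr : T0r ≤ T :=
    ((le_max_left _ _).trans ((le_max_left _ _).trans (le_max_right _ _))).trans hT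
  have hTg : T0g ≤ T :=
    ((le_max_right _ _).trans ((le_max_left _ _).trans (le_max_right _ _))).trans hT
  have hTe : Real.exp 300 ≤ T := ((le_max_right _ _).trans (le_max_right _ _)).trans hT
  have hAn : A0n ≤ μ * Real.log T ^ 2 := ((le_max_left _ _).trans (le_max_left _ _)).trans hA
  have hAu : A0u ≤ μ * Real.log T ^ 2 := ((le_max_right _ _).trans (le_max_left _ _)).trans hA
  have hAr : A1 ≤ μ * Real.log T ^ 2 := ((le_max_left _ _).trans (le_max_right _ _)).trans hA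
  have hAc : 1000 * (1 + B * Cr) / ρ ^ 2 ≤ μ * Real.log T ^ 2 :=
    ((le_max_right _ _).trans (le_max_right _ _)).trans hA
  have hδn' : μ * Real.log T ≤ δn := hδ.trans ((min_le_left _ _).trans (min_le_left _ _))
  have hδu : μ * Real.log T ≤ δ2 := hδ.trans ((min_le_left _ _).trans (min_le_right _ _))
  have hδh : μ * Real.log T ≤ 1 / 2 := hδ.trans ((min_le_right _ _).trans (min_le_left _ _))
  have hδk : μ * Real.log T ≤ 1 / (400 * Kc) :=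
    hδ.trans ((min_le_right _ _).trans (min_le_right _ _))
  have hT0 : 0 < T := (Real.exp_pos _).trans_le hTe
  have hT10 : 10 ≤ T := hT0n.trans hTn
  have hL : 300 ≤ Real.log T := (Real.le_log_iff_exp_le hT0).2 hTe
  have hLp : 0 < Real.log T := by linarith
  have hμ1 : μ ≤ 1 := by nlinarith
  have hΔ0 : 0 < μ * Real.log T := mul_pos hμ hLp
  have hK4 : 400 * Kc * (μ * Real.log T) ≤ 1 := by
    rw [le_div_iff₀ (by positivity)] at hδk
    linarith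
  refine (measure_mono ?_).trans (hn T μ hTn hμ hAn hδn')
  rintro t ⟨ht, hRg, hsmall⟩
  refine ⟨ht, ?_⟩
  intro y u hy hu1 hu2
  have hy1 : |y - t| ≤ 1 := by
    refine hy.trans ?_
    nlinarith
  have hy2 := abs_le.1 hy1
  have hu0 : 0 ≤ u := by
    refine le_trans (mul_nonneg ?_ hLp.le) hu1
    linarith
  have huL : u ≤ Real.log T := by
    refine hu2.trans ?_
    have : ((1 - x0) / 2 - ρ / 40) * Real.log T ≤ 1 * Real.log T :=
      mul_le_mul_of_nonneg_right (by linarith) hLp.le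
    linarith
  obtain ⟨ω, hω1, hω2, hω3⟩ := hg T y μ u hTg (by linarith [ht.1, hy2.1]) (by linarith [ht.2, hy2.2])
    hμ hμ1 hu0 huL
  obtain ⟨hG0, hG1, hZ⟩ := hr T t μ hTr ht.1 ht.2 hRg hμ hAr hδh
  have hG2 := hG1 y hy1
  have hA0 : 0 ≤ μ * Real.log T ^ 2 := by positivity
  -- the line `Re z = x`
  obtain ⟨x, hxdef⟩ : ∃ x : ℝ, x = x0 * (μ * Real.log T) := ⟨_, rfl⟩
  have hxx : x ^ 2 / (4 * μ) = x0 ^ 2 / 4 * (μ * Real.log T ^ 2) := by
    rw [hxdef]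
    field_simp
  have hxm : x / (2 * μ) = x0 * Real.log T / 2 := by
    rw [hxdef]
    field_simp
  have hx00 : 0 ≤ x := by rw [hxdef]; positivity
  have hxΔ : x ≤ μ * Real.log T := by
    rw [hxdef]
    exact mul_le_of_le_one_left hΔ0.le (by linarith)
  have hFB := h2 μ hμ x y ω
  have hg' : 0 < Gm T t μ * Real.exp (x0 ^ 2 / 4 * (μ * Real.log T ^ 2)) :=
    mul_pos hG0 (Real.exp_pos _)
  obtain ⟨H, hH⟩ : ∃ H : ℂ → ℂ, ∀ z, H z = LL gk (-μ) ((x : ℂ) + z) := ⟨_, fun _ => rfl⟩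
  have hJ1 : ∀ z : ℂ, ‖z - (t : ℂ) * I‖ ≤ ρ * (μ * Real.log T) →
      ‖H z‖ < Gm T t μ * Real.exp (x0 ^ 2 / 4 * (μ * Real.log T ^ 2)) *
        Real.exp (-(ρ ^ 2 * (μ * Real.log T ^ 2))) := by
    intro z hz
    have h7 : (x : ℂ) + z - (((x0 * (μ * Real.log T) : ℝ) : ℂ) + (t : ℂ) * I) =
        z - (t : ℂ) * I := by
      rw [← hxdef]
      ring
    have h6 := hsmall ((x : ℂ) + z) (by rw [h7]; exact hz)
    rw [hH]
    have h8 : Gm T t μ * Real.exp ((x0 ^ 2 / 4 - ρ ^ 2) * (μ * Real.log T ^ 2)) =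
        Gm T t μ * Real.exp (x0 ^ 2 / 4 * (μ * Real.log T ^ 2)) *
          Real.exp (-(ρ ^ 2 * (μ * Real.log T ^ 2))) := by
      rw [mul_assoc, ← Real.exp_add]
      congr 2
      ring
    rw [← h8]
    exact h6
  have hJ2 : ∀ y' : ℝ, ‖H ((y' : ℂ) * I)‖ ≤
      Gm T t μ * Real.exp (x0 ^ 2 / 4 * (μ * Real.log T ^ 2)) *
        Real.exp (ρ ^ 2 / 1000 * (μ * Real.log T ^ 2 + Real.log T * |y' - t|) +
          Kc * Real.log T * (y' - t) ^ 2) := by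
    intro y'
    have h6 := hu T t μ hTu ht.1 ht.2 hRg hμ hAu hδu x y' hx00 hxΔ
    rw [hH]
    have h8 : Gm T t μ * Real.exp (x ^ 2 / (4 * μ) + ρ ^ 2 / 1000 * (μ * Real.log T ^ 2 +
        Real.log T * |y' - t|) + Kc * Real.log T * (y' - t) ^ 2) =
        Gm T t μ * Real.exp (x0 ^ 2 / 4 * (μ * Real.log T ^ 2)) *
        Real.exp (ρ ^ 2 / 1000 * (μ * Real.log T ^ 2 + Real.log T * |y' - t|) +
          Kc * Real.log T * (y' - t) ^ 2) := by
      rw [mul_assoc (Gm T t μ), ← Real.exp_add, hxx]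
      congr 2
      ring
    rw [← h8]
    exact h6
  have hJ := J_bound (C := Cg) (Kc := Kc) (ρ := ρ) (L := Real.log T) (t := t)
    (g := Gm T t μ * Real.exp (x0 ^ 2 / 4 * (μ * Real.log T ^ 2)))
    (ω := ω.im) H hμ hμ1 hρ hρ4 hLp hKc hK4 hy hω2 hg' hJ1 hJ2
  have hω : |ω.re - x / (2 * μ)| ≤ 2 * (ρ / 40) * Real.log T + Cg := by
    have h6 := abs_le.1 hω1
    rw [abs_le, hxm]
    have h7 : 0 ≤ ρ / 40 * Real.log T := by positivity
    constructor <;> linarith [h6.1, h6.2]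
  have hfr := freq (ε := ρ / 40) (L := Real.log T) hμ hμ1 hω
  have hcomb := comb (b := x0 ^ 2 / 4 * (μ * Real.log T ^ 2)) hA0 (Real.sqrt_nonneg μ) hG0.le
    hfr hJ
  rw [← hBdef] at hcomb
  rw [hxx] at hFB
  simp only [hH] at hcomb
  exact fin_step (norm_nonneg _) hG0 (Real.sqrt_nonneg _) (norm_nonneg _) hB.le
    (Real.exp_pos _).le hω3 (hFB.trans hcomb) hG2 (main_small (mul_pos hB hCr) hρ hAc)
    (remainder hTe hμ hρ hρ4 (hA1.trans hAr) (by linarith) hZ) (Real.exp_pos _).le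

theorem hbg (h1 : S_NTg) (h2 : S_FBg) (h3 : S_UHg) (h4 : S_GB) (h5 : S_GR) : S_HBg := by
  intro ρ ε0 x0 hρ hρ4 hε0 hx0 hx1
  obtain ⟨x1, hx1def⟩ : ∃ x1 : ℝ, x1 = min x0 (1 - ρ / 2) := ⟨_, rfl⟩
  have hx10 : 0 ≤ x1 := by rw [hx1def]; exact le_min hx0 (by linarith)
  have hx11 : x1 ≤ 1 - ρ / 2 := by rw [hx1def]; exact min_le_right _ _
  have hx12 : x1 ≤ x0 := by rw [hx1def]; exact min_le_left _ _
  have hx13 : x0 - ρ / 2 ≤ x1 := by
    rw [hx1def]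
    exact le_min (by linarith) (by linarith)
  obtain ⟨κ0, hκ0, H⟩ := hb1 h1 h2 h3 h4 h5 (ρ / 2) ε0 x1 (by linarith) (by linarith) hε0 hx10
    hx11
  refine ⟨κ0, hκ0, ?_⟩
  intro κ hκ hκle A1 hA1
  obtain ⟨A0, δ, T0, hA0, hδ0, hT0, H⟩ := H κ hκ hκle A1 hA1
  refine ⟨A0, δ, T0, hA0, hδ0, hT0, ?_⟩
  intro T μ hT hμ hA hδ
  refine (measure_mono ?_).trans (H T μ hT hμ hA hδ)
  have hLp : 0 < Real.log T := Real.log_pos (by linarith)
  have hΔ0 : 0 < μ * Real.log T := mul_pos hμ hLp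
  have hA' : 0 ≤ μ * Real.log T ^ 2 := by positivity
  rintro t ⟨ht, hRg, hsmall⟩
  refine ⟨ht, hRg, ?_⟩
  intro z hz
  have hnn : 0 ≤ Gm T t μ := mul_nonneg (norm_nonneg _) (Real.exp_pos _).le
  refine (hsmall z ?_).trans_le (mul_le_mul_of_nonneg_left (Real.exp_le_exp.2
    (mul_le_mul_of_nonneg_right ?_ hA')) hnn)
  · have h6 : z - (((x0 * (μ * Real.log T) : ℝ) : ℂ) + (t : ℂ) * I) =
        (z - (((x1 * (μ * Real.log T) : ℝ) : ℂ) + (t : ℂ) * I)) +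
          (((x1 - x0) * (μ * Real.log T) : ℝ) : ℂ) := by
      push_cast
      ring
    rw [h6]
    refine (norm_add_le _ _).trans ?_
    have h7 : ‖(((x1 - x0) * (μ * Real.log T) : ℝ) : ℂ)‖ ≤ ρ / 2 * (μ * Real.log T) := by
      rw [norm_real, Real.norm_eq_abs, abs_mul, abs_of_pos hΔ0]
      apply mul_le_mul_of_nonneg_right _ hΔ0.le
      rw [abs_le]
      constructor <;> linarith
    linarith
  · nlinarith

end Pool.Agent.H200.HE
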